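import Mathlib

set_option autoImplicit false

namespace Pool.Agent.Results.MP_8a5df5_al.NotQuantumPermutation

open FreeAlgebra

/-- Defining relations of `O(G^+(X))` for a finite simple graph `X` with vertex set `V`
(Banica), between the free generators `ι (i, j)`, `i, j ∈ V`: every generator is an
idempotent, every row and every column of the matrix of generators sums to `1`, and this
matrix commutes with the adjacency matrix of `X`.  For the edgeless graph `X = ⊥` the last
relation is void and these are the relations of `O(S_N^+)` (Wang), `N = |V|`.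
(The requirement that the generators be self-adjoint only specifies the involution; it does
not change the underlying algebra.) -/
inductive GraphRel {V : Type*} [Fintype V] (X : SimpleGraph V) :
    FreeAlgebra ℂ (V × V) → FreeAlgebra ℂ (V × V) → Prop
  | idem (i j : V) : GraphRel X (ι ℂ (i, j) * ι ℂ (i, j)) (ι ℂ (i, j))
  | row (i : V) : GraphRel X (∑ j, ι ℂ (i, j)) 1
  | col (j : V) : GraphRel X (∑ i, ι ℂ (i, j)) 1
  | comm (i j : V) : GraphRel X
      (∑ k, ι ℂ (i, k) * (open scoped Classical in if X.Adj k j then 1 else 0))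
      (∑ k, (open scoped Classical in if X.Adj i k then 1 else 0) * ι ℂ (k, j))

/-- The algebra `O(G^+(X))` of the quantum automorphism group of the finite graph `X`; for the
edgeless graph on `N` vertices it is `O(S_N^+)`. -/
abbrev OGraph {V : Type*} [Fintype V] (X : SimpleGraph V) : Type _ :=
  RingQuot (GraphRel X)

/-- Defining relations of `O(H_n^+)`, the free hyperoctahedral quantum group, between the free
generators `ι (i, j)`, `1 ≤ i, j ≤ n`: the matrix of generators is orthogonal
(`u uᵗ = uᵗ u = 1`) and cubic (`u_ij u_ik = 0 = u_ji u_ki` for `j ≠ k`). -/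
inductive HyperRel (n : ℕ) :
    FreeAlgebra ℂ (Fin n × Fin n) → FreeAlgebra ℂ (Fin n × Fin n) → Prop
  | row_orth (i j : Fin n) :
      HyperRel n (∑ k, ι ℂ (i, k) * ι ℂ (j, k)) (if i = j then 1 else 0)
  | col_orth (i j : Fin n) :
      HyperRel n (∑ k, ι ℂ (k, i) * ι ℂ (k, j)) (if i = j then 1 else 0)
  | row_cubic (i j k : Fin n) (h : j ≠ k) : HyperRel n (ι ℂ (i, j) * ι ℂ (i, k)) 0
  | col_cubic (i j k : Fin n) (h : j ≠ k) : HyperRel n (ι ℂ (j, i) * ι ℂ (k, i)) 0

/-- The algebra `O(H_n^+)`. -/
abbrev OHyper (n : ℕ) : Type := RingQuot (HyperRel n)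

/-- The generators `u_ij` of `O(H_n^+)`. -/
noncomputable def u {n : ℕ} (i j : Fin n) : OHyper n :=
  RingQuot.mkAlgHom ℂ (HyperRel n) (ι ℂ (i, j))

/-- The algebra `O(PH_n^+)`: the subalgebra of `O(H_n^+)` generated by all products
`u_ij u_kl`. -/
noncomputable def OProj (n : ℕ) : Subalgebra ℂ (OHyper n) :=
  Algebra.adjoin ℂ {x | ∃ i j k l : Fin n, x = u i j * u k l}

/-- Off-diagonal symmetry with parameter `w`. -/
noncomputable def sym (w : ℂ) : Matrix (Fin 2) (Fin 2) ℂ := !![0, w⁻¹; w, 0]

lemma sym_mul (v w : ℂ) : sym v * sym w = !![v⁻¹ * w, 0; 0, v * w⁻¹] := by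
  ext i j
  fin_cases i <;> fin_cases j <;> simp [sym, Matrix.mul_apply, Fin.sum_univ_two]

lemma sym_sq {w : ℂ} (hw : w ≠ 0) : sym w * sym w = 1 := by
  rw [sym_mul]
  ext i j
  fin_cases i <;> fin_cases j <;> simp [hw]

/-- The parameters: `z` at index `1`, and `1` elsewhere. -/
noncomputable def par (n : ℕ) (z : ℂ) (i : Fin n) : ℂ := if i.val = 1 then z else 1

lemma par_ne {n : ℕ} {z : ℂ} (hz : z ≠ 0) (i : Fin n) : par n z i ≠ 0 := by
  unfold par; split_ifs <;> simp [hz]

/-- The diagonal representation of `O(H_n^+)` on `ℂ²`. -/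
noncomputable def rep (n : ℕ) {z : ℂ} (hz : z ≠ 0) :
    OHyper n →ₐ[ℂ] Matrix (Fin 2) (Fin 2) ℂ :=
  RingQuot.liftAlgHom ℂ ⟨FreeAlgebra.lift ℂ (fun p : Fin n × Fin n =>
    if p.1 = p.2 then sym (par n z p.1) else 0), by
      intro x y h
      induction h with
      | row_orth i j =>
        simp only [map_sum, map_mul, lift_ι_apply]
        by_cases hij : i = j
        · subst hij
          rw [Finset.sum_eq_single i]
          · simp [sym_sq (par_ne hz i)]
          · intro b _ hb
            simp [Ne.symm hb]
          · simp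
        · rw [Finset.sum_eq_zero]
          · simp [hij]
          · intro k _
            by_cases h1 : i = k
            · subst h1
              simp [Ne.symm hij]
            · simp [h1]
      | col_orth i j =>
        simp only [map_sum, map_mul, lift_ι_apply]
        by_cases hij : i = j
        · subst hij
          rw [Finset.sum_eq_single i]
          · simp [sym_sq (par_ne hz i)]
          · intro b _ hb
            simp [hb]
          · simp
        · rw [Finset.sum_eq_zero]
          · simp [hij]
          · intro k _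
            by_cases h1 : k = i
            · subst h1
              simp [hij]
            · simp [h1]
      | row_cubic i j k h =>
        simp only [map_mul, lift_ι_apply, map_zero]
        by_cases h1 : i = j
        · subst h1
          simp [h]
        · simp [h1]
      | col_cubic i j k h =>
        simp only [map_mul, lift_ι_apply, map_zero]
        by_cases h1 : j = i
        · subst h1
          simp [Ne.symm h]
        · simp [h1]⟩

lemma rep_u (n : ℕ) {z : ℂ} (hz : z ≠ 0) (i j : Fin n) :
    rep n hz (u i j) = if i = j then sym (par n z i) else 0 := by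
  simp [rep, u, RingQuot.liftAlgHom_mkAlgHom_apply]

/-- On `O(PH_n^+)` the representation is by diagonal matrices. -/
lemma rep_diag (n : ℕ) {z : ℂ} (hz : z ≠ 0) (x : OHyper n) (hx : x ∈ OProj n) :
    rep n hz x 0 1 = 0 ∧ rep n hz x 1 0 = 0 := by
  unfold OProj at hx
  induction hx using Algebra.adjoin_induction with
  | mem x hx =>
    obtain ⟨i, j, k, l, rfl⟩ := hx
    rw [map_mul, rep_u, rep_u]
    split_ifs <;> simp [sym_mul]
  | algebraMap r =>
    rw [AlgHom.commutes]
    simp [Matrix.algebraMap_matrix_apply]
  | add x y _ _ hx hy =>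
    simp [map_add, hx.1, hx.2, hy.1, hy.2]
  | mul x y _ _ hx hy =>
    simp [map_mul, Matrix.mul_apply, Fin.sum_univ_two, hx.1, hx.2, hy.1, hy.2]

/-- The character `u_11 u_22 ↦ z` of `O(PH_n^+)`. -/
noncomputable def chi (n : ℕ) {z : ℂ} (hz : z ≠ 0) : OProj n →ₐ[ℂ] ℂ where
  toFun x := rep n hz x.1 0 0
  map_one' := by simp
  map_mul' x y := by
    have hx := rep_diag n hz x.1 x.2
    simp [Matrix.mul_apply, Fin.sum_univ_two, hx.1]
  map_zero' := by simp
  map_add' x y := by simp
  commutes' r := by
    simp [Matrix.algebraMap_matrix_apply]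

/-- **Theorem.** For every `n ≥ 2` and every finite simple graph `X` there is no surjective
unital algebra homomorphism `O(G^+(X)) → O(PH_n^+)`.  In particular (`X` edgeless) `PH_n^+` is
not a quantum subgroup of any `S_N^+`, and `G^+(X)` is never isomorphic to `PH_n^+`. -/
theorem result (n : ℕ) (hn : 2 ≤ n) {V : Type*} [Fintype V] (X : SimpleGraph V) :
    ¬ ∃ f : OGraph X →ₐ[ℂ] OProj n, Function.Surjective f := by
  rintro ⟨f, hf⟩
  classical
  -- the element `u_00 u_11` of `O(PH_n^+)`
  let i0 : Fin n := ⟨0, by omega⟩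
  let i1 : Fin n := ⟨1, by omega⟩
  let a : OProj n := ⟨u i0 i0 * u i1 i1, Algebra.subset_adjoin ⟨i0, i0, i1, i1, rfl⟩⟩
  have hchi : ∀ {z : ℂ} (hz : z ≠ 0), chi n hz a = z := by
    intro z hz
    change rep n hz (u i0 i0 * u i1 i1) 0 0 = z
    rw [map_mul, rep_u, rep_u]
    simp [sym_mul, par, i0, i1]
  -- characters of `O(G^+(X))` take values 0, 1 on the generators
  let gen : V × V → OGraph X := fun p => RingQuot.mkAlgHom ℂ (GraphRel X) (ι ℂ p)
  have hidem : ∀ p, gen p * gen p = gen p := by
    rintro ⟨i, j⟩
    simp only [gen]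
    rw [← map_mul]
    exact RingQuot.mkAlgHom_rel ℂ (GraphRel.idem i j)
  have h01 : ∀ (φ : OGraph X →ₐ[ℂ] ℂ) (p : V × V), φ (gen p) = 0 ∨ φ (gen p) = 1 := by
    intro φ p
    have h := congrArg φ (hidem p)
    rw [map_mul] at h
    have h2 : φ (gen p) * (φ (gen p) - 1) = 0 := by linear_combination h
    rcases mul_eq_zero.mp h2 with h3 | h3
    · exact Or.inl h3
    · exact Or.inr (by linear_combination h3)
  -- hence there are only finitely many characters, but the `chi` are infinitely many
  let F : {z : ℂ // z ≠ 0} → (V × V → Prop) :=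
    fun z p => ((chi n z.2).comp f) (gen p) = 1
  have hFinj : Function.Injective F := by
    intro z w hzw
    have hcomp : (chi n z.2).comp f = (chi n w.2).comp f := by
      apply RingQuot.ringQuot_ext'
      apply FreeAlgebra.hom_ext
      funext p
      have hp : F z p = F w p := congrFun hzw p
      simp only [F] at hp
      change ((chi n z.2).comp f) (gen p) = ((chi n w.2).comp f) (gen p)
      rcases h01 ((chi n z.2).comp f) p with h1 | h1 <;>
      rcases h01 ((chi n w.2).comp f) p with h2 | h2
      · rw [h1, h2]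
      · rw [h1, h2] at hp; simp at hp
      · rw [h1, h2] at hp; simp at hp
      · rw [h1, h2]
    obtain ⟨b, hb⟩ := hf a
    have h3 := DFunLike.congr_fun hcomp b
    simp only [AlgHom.comp_apply, hb, hchi] at h3
    exact Subtype.ext h3
  have hfin : Finite ({z : ℂ | z ≠ 0} : Set ℂ) := Finite.of_injective F hFinj
  have h0 : ({0}ᶜ : Set ℂ).Finite := Set.toFinite ({z : ℂ | z ≠ 0})
  exact (Set.finite_singleton (0 : ℂ)).infinite_compl h0

end Pool.Agent.Results.MP_8a5df5_al.NotQuantumPermutation
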